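import Pool.Agent.Y354.DC3.Stm

/-!
Counting critical positions.
-/

set_option autoImplicit false

open Finset
open scoped Classical

namespace Pool.Agent.Y614.DC3

open Pool.Agent.Y354.DC3

lemma I_and (p q : Prop) : I (p ∧ q) = I p * I q := by
  unfold I
  by_cases hp : p <;> by_cases hq : q <;> simp [hp, hq]

lemma I_nonneg (p : Prop) : 0 ≤ I p := by
  unfold I
  split_ifs
  · exact zero_le_one
  · exact le_rfl

lemma card_I {k : ℕ} (p : Fin k → Prop) [DecidablePred p] :
    ((univ.filter p).card : ℝ) = ∑ i, I (p i) := by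
  rw [Finset.card_filter]
  push_cast
  refine Finset.sum_congr rfl fun i _ => ?_
  unfold I
  by_cases h : p i
  · rw [if_pos h, if_pos h]
  · rw [if_neg h, if_neg h]

section

variable {V : Type} [Fintype V] (μ : V → ℝ) (N : V → V → V → Prop)

/-- the degree of `w` with respect to `y` -/
noncomputable def G {V : Type} [Fintype V] (μ : V → ℝ) (N : V → V → V → Prop) {k : ℕ}
    (y : Fin k → V) (w : V) : ℝ :=
  ∑ u, μ u * I (Al N y u ∧ Ad N y w u)

lemma Y_eq (k : ℕ) :
    Y μ N k = E μ N k (fun y => ∑ w, μ w * I (Al N y w) * G μ N y w) := by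
  unfold Y
  congr 1
  funext y
  refine Finset.sum_congr rfl fun w _ => ?_
  unfold G
  rw [Finset.mul_sum]
  refine Finset.sum_congr rfl fun u _ => ?_
  rw [I_and (Al N y w)]
  ring

lemma E_mono (hμ : ∀ v, 0 ≤ μ v) (k : ℕ) (F F' : (Fin k → V) → ℝ) (h : ∀ x, F x ≤ F' x) :
    E μ N k F ≤ E μ N k F' := by
  unfold E
  refine Finset.sum_le_sum fun x _ => ?_
  exact mul_le_mul_of_nonneg_left (h x)
    (mul_nonneg (I_nonneg _) (Finset.prod_nonneg fun i _ => hμ _))

lemma E_sum (k : ℕ) {J : Type} (s : Finset J) (F : J → (Fin k → V) → ℝ) :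
    ∑ i ∈ s, E μ N k (F i) = E μ N k (fun x => ∑ i ∈ s, F i x) := by
  unfold E
  rw [Finset.sum_comm]
  refine Finset.sum_congr rfl fun x _ => ?_
  rw [Finset.mul_sum]

lemma E_lin (k : ℕ) (F : (Fin k → V) → ℝ) :
    E μ N k (fun x => 2 * (1 - F x)) = 2 * (P μ N k - E μ N k F) := by
  unfold P E
  rw [← Finset.sum_sub_distrib, Finset.mul_sum]
  refine Finset.sum_congr rfl fun x _ => ?_
  ring

end

theorem s_j2 : S_AL → S_EX → S_CR → S_J2 := by
  intro _ hEX hCR V _ μ N hN hμ k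
  have h1 : ∀ i : Fin (k + 1), E μ N (k + 1) (fun x => G μ N (rm x i) (x i)) = Y μ N k := by
    intro i
    rw [Y_eq μ N k]
    exact hEX V μ N hN k i (fun y w => G μ N y w)
  have h2 : ((k : ℝ) + 1) * Y μ N k =
      E μ N (k + 1) (fun x => ∑ i : Fin (k + 1), G μ N (rm x i) (x i)) := by
    rw [← E_sum μ N (k + 1) univ (fun (i : Fin (k + 1)) x => G μ N (rm x i) (x i)),
      Finset.sum_congr rfl fun i _ => h1 i, Finset.sum_const, Finset.card_univ, Fintype.card_fin,
      nsmul_eq_mul]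
    push_cast
    ring
  have h3 : P μ N (k + 2) = E μ N (k + 1) (fun x => ∑ u, μ u * I (Al N x u)) := by
    have h := hEX V μ N hN (k + 1) 0 (fun _ _ => 1)
    unfold P
    rw [h]
    congr 1
    funext x
    exact Finset.sum_congr rfl fun u _ => mul_one _
  rw [h2, h3, ← E_lin]
  refine E_mono μ N hμ.1 _ _ _ fun x => ?_
  have h4 : ∑ i : Fin (k + 1), G μ N (rm x i) (x i) =
      ∑ u, μ u * ((univ.filter (fun i : Fin (k + 1) =>
        Al N (rm x i) u ∧ Ad N (rm x i) (x i) u)).card : ℝ) := by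
    unfold G
    rw [Finset.sum_comm]
    refine Finset.sum_congr rfl fun u _ => ?_
    rw [card_I, Finset.mul_sum]
  rw [h4]
  calc ∑ u, μ u * ((univ.filter (fun i : Fin (k + 1) =>
        Al N (rm x i) u ∧ Ad N (rm x i) (x i) u)).card : ℝ)
      ≤ ∑ u, μ u * (2 * (1 - I (Al N x u))) :=
        Finset.sum_le_sum fun u _ => mul_le_mul_of_nonneg_left (hCR V N hN k x u) (hμ.1 u)
    _ = 2 * (∑ u, μ u - ∑ u, μ u * I (Al N x u)) := by
        rw [← Finset.sum_sub_distrib, Finset.mul_sum]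
        exact Finset.sum_congr rfl fun u _ => by ring
    _ = 2 * (1 - ∑ u, μ u * I (Al N x u)) := by rw [hμ.2]

end Pool.Agent.Y614.DC3
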